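import Mathlib
import Pool.Agent.TH507.WG.F

/-!
# Linear independence of the word functions at products of primes from given classes
-/

set_option autoImplicit false

namespace Pool.Agent.Y777.CL

open Finset Filter
open Pool.Agent.TH507.ZS
open Pool.Agent.TH507.HS
open Pool.Agent.TH883.Zg
open Pool.Agent.TH507.WG

/-- a class of primes is infinite -/
def Inf (P : ℕ → Prop) : Prop := ∀ Y : ℕ, ∃ q : ℕ, q.Prime ∧ Y ≤ q ∧ P q

/-- **linear independence at the primes of an infinite class** -/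
theorem hs_cls (P : ℕ → Prop) (hP : Inf P) (Λ : Finset (List ℕ+)) (h Y : ℕ)
    (c : Fin (h + 1) × Λ → ℚ)
    (hc : ∀ q : ℕ, q.Prime → P q → Y ≤ q →
      ∑ x : Fin (h + 1) × Λ, c x * (hs x.2.1 q / (q : ℚ) ^ (x.1 : ℕ)) = 0) : c = 0 := by
  classical
  set e : List ℕ+ → AA := fun w => if hw : w ∈ Λ then
    ∑ i : Fin (h + 1), kq (c (i, ⟨w, hw⟩)) * qj 1 0 ^ (i : ℕ) else 0 with he
  have heK : ∀ w, e w ∈ KN 1 le_rfl := by
    intro w
    rw [he]
    simp only
    split_ifs with hw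
    · exact (KN 1 le_rfl).sum_mem fun i _ =>
        (KN 1 le_rfl).mul_mem (kq_mem 1 le_rfl _) ((KN 1 le_rfl).pow_mem (qj_mem 1 le_rfl 0) _)
    · exact (KN 1 le_rfl).zero_mem
  have he2 : ∀ w : Λ, e w.1 = gr fun m => ∑ i : Fin (h + 1), c (i, w) *
      (1 / ((1 + 1 * m : ℕ) : ℚ)) ^ (i : ℕ) := by
    intro w
    rw [gr_sum, he]
    simp only [w.2, dite_true]
    refine Finset.sum_congr rfl fun i _ => ?_
    rw [qj, gr_pow, kq_apply, gr_mul]
    rfl
  set F : ℕ → ℚ := fun k => ∑ x : Fin (h + 1) × Λ, c x * (hs x.2.1 k / (k : ℚ) ^ (x.1 : ℕ)) with hF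
  have hsum : ∑ w ∈ Λ, e w * yw 1 w = gr fun m => F (1 + 1 * m) := by
    rw [← Finset.sum_coe_sort]
    have h1 : ∀ w : Λ, e w.1 * yw 1 w.1 = gr fun m => ∑ i : Fin (h + 1), c (i, w) *
        (hs w.1 (1 + 1 * m) / ((1 + 1 * m : ℕ) : ℚ) ^ (i : ℕ)) := by
      intro w
      rw [he2, yw, gr_mul]
      congr 1
      funext m
      rw [Finset.sum_mul]
      refine Finset.sum_congr rfl fun i _ => ?_
      rw [one_div, inv_pow]
      ring
    rw [Finset.sum_congr rfl fun w _ => h1 w, ← gr_sum]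
    congr 1
    funext m
    rw [hF]
    simp only
    rw [Fintype.sum_prod_type, Finset.sum_comm]
  have hlen : ∃ t, ∀ w ∈ Λ, w.length < t := by
    refine ⟨∑ w ∈ Λ, w.length + 1, fun w hw => ?_⟩
    have := Finset.single_le_sum (f := fun w : List ℕ+ => w.length) (fun _ _ => Nat.zero_le _) hw
    omega
  obtain ⟨t, ht⟩ := hlen
  have hW : ∑ w ∈ Λ, e w * yw 1 w ∈ W (KN 1 le_rfl) (yw 1) t :=
    (W _ _ t).sum_mem fun w hw => mul_mem_W (heK w) (mem_W (ht w hw))
  have hS := Sz_W 1 le_rfl t _ hW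
  rw [hsum, Sz_gr] at hS
  have hne : ∀ m0 : ℕ, (∀ m, m0 ≤ m → F (1 + 1 * m) ≠ 0) → False := by
    intro m0 hm0
    obtain ⟨q, hqp, hq, hqP⟩ := hP (m0 + Y + 2)
    have h1 := hc q hqp hqP (by omega)
    apply hm0 (q - 1) (by omega)
    rw [show 1 + 1 * (q - 1) = q by omega]
    exact h1
  rcases hS with h1 | h1 | h1
  · rw [eventually_atTop] at h1
    obtain ⟨m0, hm0⟩ := h1
    refine hs_ind Λ h 1 (m0 + 1) le_rfl c fun k hk _ => ?_
    have h2 : F (1 + 1 * (k - 1)) = 0 := hm0 (k - 1) (by omega)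
    rw [show 1 + 1 * (k - 1) = k by omega] at h2
    exact h2
  · rw [eventually_atTop] at h1
    obtain ⟨m0, hm0⟩ := h1
    exact (hne m0 fun m hm => (hm0 m hm).ne').elim
  · rw [eventually_atTop] at h1
    obtain ⟨m0, hm0⟩ := h1
    exact (hne m0 fun m hm => (hm0 m hm).ne).elim

/-- the leading coefficients vanish -/
lemma lead (P : ℕ → Prop) (hP : Inf P) (W : Finset (ℕ × List (ℕ × ℕ)))
    (x : ℕ × List (ℕ × ℕ) → ℚ) (Y : ℕ)
    (hW : ∀ w ∈ W, OK w.2) (Q : List (ℕ × ℕ))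
    (h : ∀ p : ℕ, p.Prime → P p → Y ≤ p → ∑ w ∈ W, x w * (E w.2 Q p / (p : ℚ) ^ w.1) = 0)
    (w0 : ℕ × List (ℕ × ℕ)) (hw0 : w0 ∈ W)
    (hmax : ∀ w ∈ W, x w ≠ 0 → (zb w.2).length ≤ (zb w0.2).length) :
    ∑ w ∈ W with w.1 = w0.1 ∧ zb w.2 = zb w0.2, x w * E (rs w.2) Q (tp Q) = 0 := by
  classical
  have hex : ∀ w : W, ∃ g : ℕ → ℚ, g (zb w.1.2).length = E (rs w.1.2) Q (tp Q) ∧
      ∀ m, tp Q ≤ m → E w.1.2 Q m =
        ∑ i ∈ range ((zb w.1.2).length + 1), g i * hs ((zb w.1.2).take i) m := fun w =>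
    expand_E w.1.2 (hW w.1 w.2) Q
  choose g hg1 hg2 using hex
  set H : ℕ := W.sup Prod.fst with hH
  have hHle : ∀ w : W, w.1.1 < H + 1 := fun w => Nat.lt_succ_of_le (le_sup (f := Prod.fst) w.2)
  set Λ : Finset (List ℕ+) := W.biUnion fun w =>
    (range ((zb w.2).length + 1)).image fun i => (zb w.2).take i with hΛ
  have hΛm : ∀ (w : W) (i : Fin ((zb w.1.2).length + 1)), (zb w.1.2).take i ∈ Λ := fun w i =>
    mem_biUnion.2 ⟨w.1, w.2, mem_image_of_mem _ (mem_range.2 i.2)⟩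
  set φ : (Σ w : W, Fin ((zb w.1.2).length + 1)) → Fin (H + 1) × Λ := fun t =>
    (⟨t.1.1.1, hHle t.1⟩, ⟨(zb t.1.1.2).take t.2, hΛm t.1 t.2⟩) with hφ
  set G : (Σ w : W, Fin ((zb w.1.2).length + 1)) → ℚ := fun t => x t.1.1 * g t.1 t.2 with hG
  have hc := hs_cls P hP Λ H (Y + tp Q) (fun y => ∑ t, if φ t = y then G t else 0) (by
    intro q hq hqP hqY
    have h1 : ∀ F : Fin (H + 1) × Λ → ℚ,
        ∑ y, (∑ t, if φ t = y then G t else 0) * F y = ∑ t, G t * F (φ t) := by
      intro F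
      simp only [sum_mul, ite_mul, zero_mul]
      rw [sum_comm]
      refine sum_congr rfl fun t _ => ?_
      rw [sum_ite_eq, if_pos (mem_univ _)]
    rw [h1, Fintype.sum_sigma, ← h q hq hqP (by omega), ← sum_coe_sort W]
    refine sum_congr rfl fun w _ => ?_
    rw [hg2 w q (by omega), sum_range, sum_div, mul_sum]
    refine sum_congr rfl fun i _ => ?_
    rw [hG, hφ]
    simp only
    ring)
  have hy := congrFun hc (⟨w0.1, hHle ⟨w0, hw0⟩⟩, ⟨zb w0.2, by
    have := hΛm ⟨w0, hw0⟩ ⟨(zb w0.2).length, Nat.lt_succ_self _⟩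
    simpa using this⟩)
  simp only [Pi.zero_apply] at hy
  rw [Fintype.sum_sigma] at hy
  rw [sum_filter, ← sum_coe_sort W]
  refine Eq.trans (sum_congr rfl fun w _ => ?_) hy
  by_cases hxw : x w.1 = 0
  · rw [hxw, zero_mul, ite_self]
    symm
    refine sum_eq_zero fun i _ => ?_
    rw [hG]
    simp only
    rw [hxw, zero_mul, ite_self]
  have hlen := hmax w.1 w.2 hxw
  have hiff : ∀ i : Fin ((zb w.1.2).length + 1), φ ⟨w, i⟩ =
      (⟨w0.1, hHle ⟨w0, hw0⟩⟩, ⟨zb w0.2, by
        have := hΛm ⟨w0, hw0⟩ ⟨(zb w0.2).length, Nat.lt_succ_self _⟩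
        simpa using this⟩) ↔ (w.1.1 = w0.1 ∧ zb w.1.2 = zb w0.2) ∧
        i = ⟨(zb w.1.2).length, Nat.lt_succ_self _⟩ := by
    intro i
    rw [hφ]
    simp only [Prod.mk.injEq, Fin.mk.injEq, Subtype.mk.injEq]
    constructor
    · rintro ⟨h1, h2⟩
      have h3 := congrArg List.length h2
      rw [List.length_take] at h3
      have h4 := i.2
      have h5 : (i : ℕ) = (zb w.1.2).length := by omega
      rw [h5, List.take_length] at h2
      exact ⟨⟨h1, h2⟩, Fin.ext h5⟩
    · rintro ⟨⟨h1, h2⟩, rfl⟩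
      refine ⟨h1, ?_⟩
      show (zb w.1.2).take (zb w.1.2).length = zb w0.2
      rw [List.take_length, h2]
  by_cases hcond : w.1.1 = w0.1 ∧ zb w.1.2 = zb w0.2
  · rw [if_pos hcond, sum_eq_single ⟨(zb w.1.2).length, Nat.lt_succ_self _⟩]
    · rw [if_pos ((hiff _).2 ⟨hcond, rfl⟩), hG]
      simp only
      rw [hg1]
    · intro i _ hi
      rw [if_neg fun h' => hi ((hiff i).1 h').2]
    · intro h'
      exact absurd (mem_univ _) h'
  · rw [if_neg hcond]
    symm
    refine sum_eq_zero fun i _ => ?_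
    rw [if_neg fun h' => hcond ((hiff i).1 h').1]

/-- the primes of a list are in the given classes, counted from the smallest prime -/
def CL (Pr : ℕ → ℕ → Prop) : List (ℕ × ℕ) → Prop
  | [] => True
  | q :: Q => Pr Q.length q.1 ∧ CL Pr Q

theorem tail_ind (Pr : ℕ → ℕ → Prop) (hPr : ∀ i, Inf (Pr i)) (a : List ℕ) :
    ∀ (W : Finset (ℕ × List (ℕ × ℕ)))
    (x : ℕ × List (ℕ × ℕ) → ℚ) (Y : ℕ), (∀ w ∈ W, OK w.2) → (∀ w ∈ W, pa w.2 = a) →
    (∀ Q, DP Q → CL Pr Q → (∀ q ∈ Q, Y ≤ q.1) → Q.map Prod.snd = a → ∀ p : ℕ, p.Prime →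
      Pr Q.length p → Y ≤ p →
      (∀ q ∈ Q, q.1 < p) → ∑ w ∈ W, x w * (E w.2 Q p / (p : ℚ) ^ w.1) = 0) →
    ∀ w ∈ W, x w = 0 := by
  classical
  induction a with
  | nil =>
    intro W x Y hOK hpa hE
    by_contra hcon
    push Not at hcon
    obtain ⟨w1, hw1, hw1'⟩ := hcon
    obtain ⟨w0, hw0, hmax⟩ := exists_max_image (W.filter fun v => x v ≠ 0)
      (fun v => (zb v.2).length) ⟨w1, mem_filter.2 ⟨hw1, hw1'⟩⟩
    rw [mem_filter] at hw0
    have hDP : DP [] := ⟨by simp, by simp, List.Pairwise.nil⟩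
    have h1 := lead (Pr 0) (hPr 0) W x Y hOK [] (fun p hp hpP hY =>
      hE [] hDP trivial (by simp) rfl p hp hpP hY (by simp)) w0
      hw0.1 (fun w hw hx => hmax w (mem_filter.2 ⟨hw, hx⟩))
    have hrs : ∀ w ∈ W, rs w.2 = [] := by
      intro w hw
      rcases rs_cases w.2 with h | ⟨y, l', -, -, h⟩
      · exact h.1
      · rw [hpa w hw] at h
        exact absurd h.symm (List.cons_ne_nil _ _)
    rw [sum_eq_single w0] at h1
    · rw [hrs w0 hw0.1, E_nil_nil, mul_one] at h1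
      exact hw0.2 h1
    · intro w hw hne
      exfalso
      apply hne
      rw [mem_filter] at hw
      refine Prod.ext hw.2.1 ?_
      rw [← split (hOK w hw.1), ← split (hOK w0 hw0.1), hw.2.2, hrs w hw.1, hrs w0 hw0.1]
    · intro h
      exact absurd (mem_filter.2 ⟨hw0.1, rfl, rfl⟩) h
  | cons e a ih =>
    intro W x Y hOK hpa hE
    by_contra hcon
    push Not at hcon
    obtain ⟨w1, hw1, hw1'⟩ := hcon
    obtain ⟨w0, hw0, hmax⟩ := exists_max_image (W.filter fun v => x v ≠ 0)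
      (fun v => (zb v.2).length) ⟨w1, mem_filter.2 ⟨hw1, hw1'⟩⟩
    rw [mem_filter] at hw0
    have hrs : ∀ w ∈ W, ∃ b l', rs w.2 = (e, b) :: l' ∧ pa l' = a ∧ OK l' := by
      intro w hw
      rcases rs_cases w.2 with ⟨-, h⟩ | ⟨y, l', h1, -, h2⟩
      · rw [hpa w hw] at h
        exact absurd h (List.cons_ne_nil _ _)
      · rw [hpa w hw, List.cons_eq_cons] at h2
        refine ⟨y.2, l', ?_, h2.2.symm, ?_⟩
        · rw [h1, h2.1]
        · have h3 := (hOK w hw).rs
          rw [h1] at h3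
          exact h3.tail
    have he0 : e ≠ 0 := pa_ne w0.2 e (by rw [hpa w0 hw0.1]; exact List.mem_cons_self)
    set ψ : ℕ × List (ℕ × ℕ) → ℕ × List (ℕ × ℕ) := fun t =>
      (w0.1, Z (zb w0.2) ++ (e, t.1) :: t.2) with hψ
    have hψi : Function.Injective ψ := by
      intro t t' h
      rw [hψ] at h
      simp only [Prod.mk.injEq, true_and] at h
      have h1 := List.append_cancel_left h
      rw [List.cons_eq_cons, Prod.mk.injEq] at h1
      exact Prod.ext h1.1.2 h1.2
    set F : Finset (ℕ × List (ℕ × ℕ)) := W.filter fun w => w.1 = w0.1 ∧ zb w.2 = zb w0.2 with hF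
    have hrange : ∀ w ∈ F, ∃ t, ψ t = w := by
      intro w hw
      rw [hF, mem_filter] at hw
      obtain ⟨b, l', h1, -, -⟩ := hrs w hw.1
      refine ⟨(b, l'), ?_⟩
      rw [hψ]
      refine Prod.ext hw.2.1.symm ?_
      show Z (zb w0.2) ++ (e, b) :: l' = w.2
      rw [← hw.2.2, ← h1]
      exact split (hOK w hw.1)
    have key := ih (F.preimage ψ hψi.injOn) (fun t => x (ψ t)) Y (fun t ht => by
      rw [mem_preimage, hF, mem_filter] at ht
      have h1 := hOK _ ht.1
      intro y hy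
      exact h1 y (List.mem_append_right _ (List.mem_cons_of_mem _ hy))) (fun t ht => by
      rw [mem_preimage, hF, mem_filter] at ht
      have h1 := hpa _ ht.1
      rw [hψ] at h1
      simp only at h1
      rw [pa_Z, pa_pos _ he0, List.cons_eq_cons] at h1
      exact h1.2) (by
      intro Q hQ hQC hQY hQa p hp hpP hpY hpQ
      have hDP : DP ((p, e) :: Q) := by
        refine ⟨fun q hq => ?_, fun q hq => ?_, List.pairwise_cons.2 ⟨hpQ, hQ.2.2⟩⟩
        · rcases List.mem_cons.1 hq with rfl | hq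
          · exact hp
          · exact hQ.1 q hq
        · rcases List.mem_cons.1 hq with rfl | hq
          · exact Nat.one_le_iff_ne_zero.2 he0
          · exact hQ.2.1 q hq
      have h1 := lead (Pr ((p, e) :: Q).length) (hPr _) W x (Y + tp ((p, e) :: Q)) hOK
        ((p, e) :: Q) (fun r hr hrP hY =>
        hE ((p, e) :: Q) hDP ⟨hpP, hQC⟩ (fun q hq => by
          rcases List.mem_cons.1 hq with rfl | hq
          · exact hpY
          · exact hQY q hq) (by rw [List.map_cons, hQa]) r hr hrP (by omega) (fun q hq => by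
          have := hDP.lt_tp q hq
          omega)) w0 hw0.1 (fun w hw hx => hmax w (mem_filter.2 ⟨hw, hx⟩))
      rw [← hF] at h1
      refine Eq.trans ?_ h1
      refine Eq.trans ?_ (sum_preimage ψ F hψi.injOn
        (fun w => x w * E (rs w.2) ((p, e) :: Q) (tp ((p, e) :: Q))) ?_)
      · refine sum_congr rfl fun t _ => ?_
        have h2 : rs (ψ t).2 = (e, t.1) :: t.2 := rs_Z _ _ _ he0
        rw [h2, E_pos_cons (e, t.1) t.2 (p, e) Q _ he0]
        have h3 : p < tp ((p, e) :: Q) := Nat.lt_succ_self p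
        simp only [h3, and_self, if_true]
      · intro w hw hnr
        exact absurd (hrange w hw) hnr)
    obtain ⟨t, ht⟩ := hrange w0 (mem_filter.2 ⟨hw0.1, rfl, rfl⟩)
    have h2 := key t (by
      rw [mem_preimage, ht, hF]
      exact mem_filter.2 ⟨hw0.1, rfl, rfl⟩)
    rw [ht] at h2
    exact hw0.2 h2

theorem cf2_ind (Pr : ℕ → ℕ → Prop) (hPr : ∀ i, Inf (Pr i))
    (Λ : Finset (List (ℕ × ℕ))) (hHP : ∀ v ∈ Λ, HP v) (hOK : ∀ v ∈ Λ, OK v)
    (y : List (ℕ × ℕ) → ℚ) (X : ℕ)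
    (h : ∀ Q, Q ≠ [] → DP Q → CL Pr Q → (∀ q ∈ Q, X ≤ q.1) →
      ∑ v ∈ Λ, y v * cf 2 v (KQ Q) = 0) :
    ∀ v ∈ Λ, v ≠ [] → y v = 0 := by
  classical
  by_contra hcon
  push Not at hcon
  obtain ⟨v1, hv1, hv1', hv1''⟩ := hcon
  obtain ⟨v0, hv0, hmin⟩ := exists_min_image (Λ.filter fun v => v ≠ [] ∧ y v ≠ 0) asum
    ⟨v1, mem_filter.2 ⟨hv1, hv1', hv1''⟩⟩
  rw [mem_filter] at hv0
  obtain ⟨⟨e, b0⟩, l0, rfl⟩ := List.exists_cons_of_ne_nil hv0.2.1
  have he : 1 ≤ e := hHP _ hv0.1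
  have he0 : e ≠ 0 := by omega
  set ψ : ℕ × List (ℕ × ℕ) → List (ℕ × ℕ) := fun t => (e, t.1) :: t.2 with hψ
  have hψi : Function.Injective ψ := by
    intro t t' ht
    rw [hψ] at ht
    simp only [List.cons_eq_cons, Prod.mk.injEq, true_and] at ht
    exact Prod.ext ht.1 ht.2
  set F : Finset (List (ℕ × ℕ)) := Λ.filter fun v => pa v = e :: pa l0 with hF
  have hpa0 : ∀ t : ℕ × List (ℕ × ℕ), pa (ψ t) = e :: pa t.2 := fun t => pa_pos _ he0
  have hrange : ∀ v ∈ F, ∃ t, ψ t = v := by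
    intro v hv
    rw [hF, mem_filter] at hv
    have hv2 := hv.2
    cases v with
    | nil => exact absurd hv2.symm (List.cons_ne_nil _ _)
    | cons z l =>
      have hz : 1 ≤ z.1 := hHP _ hv.1
      rw [pa_pos l (by omega), List.cons_eq_cons] at hv2
      refine ⟨(z.2, l), ?_⟩
      show (e, z.2) :: l = z :: l
      rw [← hv2.1]
  have key := tail_ind Pr hPr (pa l0) (F.preimage ψ hψi.injOn) (fun t => y (ψ t)) X
    (fun t ht => by
      rw [mem_preimage, hF, mem_filter] at ht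
      exact (hOK _ ht.1).tail) (fun t ht => by
      rw [mem_preimage, hF, mem_filter, hpa0, List.cons_eq_cons] at ht
      exact ht.2.2) (by
      intro Q hQ hQC hQY hQa p hp hpP hpY hpQ
      have hDP : DP ((p, e) :: Q) := by
        refine ⟨fun q hq => ?_, fun q hq => ?_, List.pairwise_cons.2 ⟨hpQ, hQ.2.2⟩⟩
        · rcases List.mem_cons.1 hq with rfl | hq
          · exact hp
          · exact hQ.1 q hq
        · rcases List.mem_cons.1 hq with rfl | hq
          · exact he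
          · exact hQ.2.1 q hq
      have hK0 := KQ_ne hDP.1
      have hqK : p ≤ KQ ((p, e) :: Q) := by
        refine Nat.le_of_dvd (Nat.pos_of_ne_zero hK0) ?_
        rw [KQ_cons]
        exact dvd_mul_of_dvd_left (dvd_pow_self _ he0) _
      have h5 := h ((p, e) :: Q) (List.cons_ne_nil _ _) hDP ⟨hpP, hQC⟩ (fun q hq => by
        rcases List.mem_cons.1 hq with rfl | hq
        · exact hpY
        · exact hQY q hq)
      refine Eq.trans ?_ h5
      have h6 : ∑ v ∈ Λ, y v * cf 2 v (KQ ((p, e) :: Q)) =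
          ∑ v ∈ F, y v * cf 2 v (KQ ((p, e) :: Q)) := by
        rw [hF, sum_filter]
        refine sum_congr rfl fun v hv => ?_
        split_ifs with hpv
        · rfl
        by_cases hyv : y v = 0
        · rw [hyv, zero_mul]
        cases v with
        | nil =>
          rw [cf, T_nil, if_neg (by have := hp.two_le; omega), mul_zero]
        | cons z l =>
          have hz : 1 ≤ z.1 := hHP _ hv
          have h7 := hmin (z :: l) (mem_filter.2 ⟨hv, List.cons_ne_nil _ _, hyv⟩)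
          rw [cf_eval z l (by omega) (p, e) Q hDP (by
            rw [esum_cons, esum_of_map hQa, ← asum_cons (e, b0) l0]
            exact h7)]
          split_ifs with h8
          · have h9 : E l Q p = 0 := by
              by_contra h9
              apply hpv
              rw [pa_pos l (by omega), E_shape l Q p h9, hQa]
              congr 1
            rw [h9, zero_div, mul_zero]
          · rw [mul_zero]
      rw [h6]
      refine Eq.trans ?_ (sum_preimage ψ F hψi.injOn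
        (fun v => y v * cf 2 v (KQ ((p, e) :: Q))) ?_)
      · refine sum_congr rfl fun t ht => ?_
        rw [mem_preimage, hF, mem_filter] at ht
        by_cases hyt : y (ψ t) = 0
        · rw [hyt, zero_mul, zero_mul]
        have h7 := hmin (ψ t) (mem_filter.2 ⟨ht.1, List.cons_ne_nil _ _, hyt⟩)
        have h8 : cf 2 (ψ t) (KQ ((p, e) :: Q)) =
            if e = e then E t.2 Q p / (p : ℚ) ^ t.1 else 0 :=
          cf_eval (e, t.1) t.2 he0 (p, e) Q hDP (by
            rw [esum_cons, esum_of_map hQa, ← asum_cons (e, b0) l0]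
            exact h7)
        rw [h8, if_pos rfl]
      · intro v hv hnr
        exact absurd (hrange v hv) hnr)
  have hmem : ((e, b0) :: l0) ∈ F := by
    rw [hF]
    exact mem_filter.2 ⟨hv0.1, pa_pos _ he0⟩
  exact hv0.2.2 (key (b0, l0) (by
    rw [mem_preimage]
    exact hmem))

theorem cf1_ind (Pr : ℕ → ℕ → Prop) (hPr : ∀ i, Inf (Pr i))
    (Λ : Finset (List (ℕ × ℕ))) (hΛ : [] ∉ Λ) (hHP : ∀ v ∈ Λ, HP v)
    (hOK : ∀ v ∈ Λ, OK v) (x : List (ℕ × ℕ) → ℚ) (X : ℕ)
    (h : ∀ Q, Q ≠ [] → DP Q → CL Pr Q → (∀ q ∈ Q, X ≤ q.1) →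
      ∑ w ∈ Λ, x w * cf 1 w (KQ Q) = 0) :
    ∀ w ∈ Λ, x w = 0 := by
  classical
  by_contra hcon
  push Not at hcon
  obtain ⟨w1, hw1, hw1'⟩ := hcon
  obtain ⟨w0, hw0, hmax⟩ := exists_max_image (Λ.filter fun v => x v ≠ 0) List.length
    ⟨w1, mem_filter.2 ⟨hw1, hw1'⟩⟩
  rw [mem_filter] at hw0
  have hne : w0 ≠ [] := fun h0 => hΛ (h0 ▸ hw0.1)
  choose s r h1 h2 h3 h4 using T_one
  set y : List (ℕ × ℕ) → ℚ := fun v => (if v ∈ Λ then x v else 0) +
    ∑ w ∈ Λ, (if v ∈ s w then x w * r w v else 0) with hy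
  have hsub : ∀ w ∈ Λ, s w ⊆ Λ ∪ Λ.biUnion s := fun w hw =>
    (subset_biUnion_of_mem s hw).trans subset_union_right
  have hy0 := cf2_ind Pr hPr (Λ ∪ Λ.biUnion s) (by
    intro v hv
    rcases mem_union.1 hv with hv | hv
    · exact hHP v hv
    · obtain ⟨w, hw, hvw⟩ := mem_biUnion.1 hv
      rcases h2 w v hvw with rfl | h5
      · trivial
      · have h6 := hHP w hw
        cases v with
        | nil => trivial
        | cons a v =>
          cases w with
          | nil => simp at h5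
          | cons b w =>
            simp only [List.head?_cons, Option.some.injEq] at h5
            show 1 ≤ a.1
            rw [h5]
            exact h6) (by
    intro v hv
    rcases mem_union.1 hv with hv | hv
    · exact hOK v hv
    · obtain ⟨w, hw, hvw⟩ := mem_biUnion.1 hv
      exact fun z hz => hOK w hw z (h3 w v hvw z hz)) y X (by
    intro Q hQ0 hQ hQC hQX
    rw [← h Q hQ0 hQ hQC hQX]
    set K := KQ Q with hK
    have hK1 : 1 ≤ K := Nat.one_le_iff_ne_zero.2 (KQ_ne hQ.1)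
    have e1 : ∑ v ∈ Λ ∪ Λ.biUnion s, (if v ∈ Λ then x v else 0) * cf 2 v K =
        ∑ w ∈ Λ, x w * cf 2 w K := by
      simp only [ite_mul, zero_mul]
      rw [sum_ite_mem, union_inter_cancel_left]
    have e2 : ∑ v ∈ Λ ∪ Λ.biUnion s, (∑ w ∈ Λ, (if v ∈ s w then x w * r w v else 0)) * cf 2 v K =
        ∑ w ∈ Λ, ∑ v ∈ s w, x w * (r w v * cf 2 v K) := by
      simp only [sum_mul]
      rw [sum_comm]
      refine sum_congr rfl fun w hw => ?_
      simp only [ite_mul, zero_mul]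
      rw [sum_ite_mem, inter_eq_right.2 (hsub w hw)]
      exact sum_congr rfl fun v _ => by ring
    simp only [hy, add_mul, sum_add_distrib]
    rw [e1, e2, ← sum_add_distrib]
    refine sum_congr rfl fun w hw => ?_
    rw [← mul_sum, ← mul_add]
    congr 1
    exact (h4 w (K + 1) K (by omega)).symm) w0 (mem_union_left _ hw0.1) hne
  rw [hy] at hy0
  simp only [hw0.1, if_true] at hy0
  rw [sum_eq_zero (fun w hw => by
    split_ifs with h5
    · have h6 := h1 w w0 h5
      have h7 : x w = 0 := by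
        by_contra h7
        have := hmax w (mem_filter.2 ⟨hw, h7⟩)
        omega
      rw [h7, zero_mul]
    · rfl), add_zero] at hy0
  exact hw0.2 hy0

end Pool.Agent.Y777.CL
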