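import Mathlib
import Pool.Agent.Y777.CL.P

/-!
# Sums over factorisations with sixth roots of unity
-/

set_option autoImplicit false

namespace Pool.Agent.Y777.CL

open Finset Filter Topology
open Pool.Agent.TH507.WG

/-- the primitive sixth root of unity in the upper half plane -/
noncomputable def om : ℂ := ⟨1 / 2, Real.sqrt 3 / 2⟩

lemma om_sq : om * om = om - 1 := by
  have h3 : Real.sqrt 3 * Real.sqrt 3 = 3 := Real.mul_self_sqrt (by norm_num)
  apply Complex.ext
  · simp only [om, Complex.mul_re, Complex.sub_re, Complex.one_re]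
    linear_combination (-1 / 4) * h3
  · simp only [om, Complex.mul_im, Complex.sub_im, Complex.one_im]
    ring

/-- the numbers `x + y ω` with rational `x` and `y` -/
def RR (z : ℂ) : Prop := ∃ x y : ℚ, z = x + y * om

lemma RR.add {z w : ℂ} (hz : RR z) (hw : RR w) : RR (z + w) := by
  obtain ⟨x, y, rfl⟩ := hz
  obtain ⟨x', y', rfl⟩ := hw
  exact ⟨x + x', y + y', by push_cast; ring⟩

lemma RR.mul {z w : ℂ} (hz : RR z) (hw : RR w) : RR (z * w) := by
  obtain ⟨x, y, rfl⟩ := hz
  obtain ⟨x', y', rfl⟩ := hw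
  refine ⟨x * x' - y * y', x * y' + y * x' + y * y', ?_⟩
  push_cast
  linear_combination ((y : ℂ) * y') * om_sq

lemma RR.neg {z : ℂ} (hz : RR z) : RR (-z) := by
  obtain ⟨x, y, rfl⟩ := hz
  exact ⟨-x, -y, by push_cast; ring⟩

lemma RR.rat (q : ℚ) : RR (q : ℂ) := ⟨q, 0, by push_cast; ring⟩

lemma RR.zero : RR 0 := by
  have := RR.rat 0
  simpa using this

lemma RR.one : RR 1 := by
  have := RR.rat 1
  simpa using this

lemma RR.om : RR om := ⟨0, 1, by push_cast; ring⟩

lemma RR.pow {z : ℂ} (hz : RR z) (k : ℕ) : RR (z ^ k) := by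
  induction k with
  | zero => rw [pow_zero]; exact RR.one
  | succ k ih => rw [pow_succ]; exact ih.mul hz

lemma RR.div_nat {z : ℂ} (hz : RR z) (j k : ℕ) : RR (z / (j : ℂ) ^ k) := by
  rw [div_eq_mul_inv]
  refine hz.mul ?_
  have := RR.rat (((j : ℚ) ^ k)⁻¹)
  push_cast at this
  exact this

lemma RR.sum {ι : Type} (s : Finset ι) (f : ι → ℂ) (h : ∀ i ∈ s, RR (f i)) :
    RR (∑ i ∈ s, f i) := by
  classical
  induction s using Finset.induction_on with
  | empty => rw [sum_empty]; exact RR.zero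
  | insert a s ha ih =>
    rw [sum_insert ha]
    exact (h a (mem_insert_self _ _)).add (ih fun i hi => h i (mem_insert_of_mem hi))

lemma RR.re {z : ℂ} (hz : RR z) : ∃ q : ℚ, z.re = q := by
  obtain ⟨x, y, rfl⟩ := hz
  refine ⟨x + y / 2, ?_⟩
  simp only [Complex.add_re, Complex.mul_re, Complex.ratCast_re, Complex.ratCast_im, zero_mul,
    sub_zero, Pool.Agent.Y777.CL.om]
  push_cast
  ring

lemma om_quad {z : ℂ} (h : z * z - z + 1 = 0) : RR z := by
  have h1 : (z - om) * (z - (1 - om)) = 0 := by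
    linear_combination h - om_sq
  rcases mul_eq_zero.1 h1 with h2 | h2
  · rw [sub_eq_zero.1 h2]
    exact RR.om
  · rw [sub_eq_zero.1 h2, sub_eq_add_neg]
    exact RR.one.add RR.om.neg

lemma RR.six {z : ℂ} (h : z ^ 6 = 1) : RR z := by
  have h1 : (z - 1) * (z + 1) * ((z * z - z + 1) * ((-z) * (-z) - (-z) + 1)) = 0 := by
    linear_combination h
  rcases mul_eq_zero.1 h1 with h2 | h2
  · rcases mul_eq_zero.1 h2 with h3 | h3
    · rw [sub_eq_zero.1 h3]
      exact RR.one
    · rw [eq_neg_of_add_eq_zero_left h3]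
      exact RR.one.neg
  · rcases mul_eq_zero.1 h2 with h3 | h3
    · exact om_quad h3
    · have := (om_quad h3).neg
      rwa [neg_neg] at this

lemma re_ne {z : ℂ} (h : z ^ 6 = 1) : z.re ≠ 0 := by
  intro h0
  have h1 : z = z.im * Complex.I := by
    apply Complex.ext
    · simp [h0]
    · simp
  rw [h1, mul_pow] at h
  have h2 : Complex.I ^ 6 = -1 := by
    rw [show (6 : ℕ) = 4 + 2 from rfl, pow_add, Complex.I_pow_four, Complex.I_sq, one_mul]
  rw [h2] at h
  have h3 := congrArg Complex.re h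
  have h4 : ((z.im : ℂ) ^ 6 * -1).re = -(z.im ^ 6) := by
    rw [mul_neg, mul_one, Complex.neg_re, ← Complex.ofReal_pow, Complex.ofReal_re]
  rw [h4, Complex.one_re] at h3
  have h5 : 0 ≤ z.im ^ 6 := by positivity
  linarith

lemma norm_six {z : ℂ} (h : z ^ 6 = 1) : ‖z‖ = 1 := by
  have h1 : ‖z‖ ^ 6 = 1 := by rw [← norm_pow, h, norm_one]
  exact (pow_eq_one_iff_of_nonneg (norm_nonneg _) (by norm_num)).1 h1

/-- letters with a root of unity -/
abbrev Lt := (ℕ × ℕ) × ℂ

/-- the sum over factorisations, with roots of unity -/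
noncomputable def TC : List Lt → ℕ → ℕ → ℂ
  | [], _, K => if K = 1 then 1 else 0
  | x :: l, m, K => ∑ j ∈ Ico 1 m,
      if j ^ x.1.1 ∣ K then x.2 ^ j * TC l j (K / j ^ x.1.1) / (j : ℂ) ^ x.1.2 else 0

lemma TC_nil (m K : ℕ) : TC [] m K = if K = 1 then 1 else 0 := by rw [TC]

lemma TC_cons (x : Lt) (l : List Lt) (m K : ℕ) :
    TC (x :: l) m K = ∑ j ∈ Ico 1 m,
      if j ^ x.1.1 ∣ K then x.2 ^ j * TC l j (K / j ^ x.1.1) / (j : ℂ) ^ x.1.2 else 0 := by rw [TC]

/-- the pattern of a word -/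
def pt (w : List Lt) : List (ℕ × ℕ) := w.map Prod.fst

lemma pt_nil : pt [] = [] := rfl
lemma pt_cons (x : Lt) (l : List Lt) : pt (x :: l) = x.1 :: pt l := rfl

/-- all letters have a sixth root of unity, the fixed ones have `1` -/
def GD (w : List Lt) : Prop := ∀ x ∈ w, x.2 ^ 6 = 1 ∧ (x.1.1 = 0 → x.2 = 1)

lemma GD.tail {x : Lt} {l : List Lt} (h : GD (x :: l)) : GD l :=
  fun y hy => h y (List.mem_cons_of_mem _ hy)

lemma GD.head {x : Lt} {l : List Lt} (h : GD (x :: l)) : x.2 ^ 6 = 1 ∧ (x.1.1 = 0 → x.2 = 1) :=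
  h x List.mem_cons_self

lemma TC_RR (w : List Lt) (hw : GD w) : ∀ m K, RR (TC w m K) := by
  induction w with
  | nil =>
    intro m K
    rw [TC_nil]
    split_ifs
    · exact RR.one
    · exact RR.zero
  | cons x l ih =>
    intro m K
    rw [TC_cons]
    refine RR.sum _ _ fun j _ => ?_
    split_ifs
    · exact (((RR.six hw.head.1).pow j).mul (ih hw.tail _ _)).div_nat _ _
    · exact RR.zero

lemma TC_norm (w : List Lt) (hw : GD w) : ∀ m K, ‖TC w m K‖ ≤ (T 1 (pt w) m K : ℝ) := by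
  induction w with
  | nil =>
    intro m K
    rw [TC_nil, pt_nil, T_nil]
    split_ifs <;> simp
  | cons x l ih =>
    intro m K
    rw [TC_cons, pt_cons, T_cons, lo_one, Rat.cast_sum]
    refine (norm_sum_le _ _).trans (sum_le_sum fun j _ => ?_)
    split_ifs
    · rw [norm_div, norm_mul, norm_pow, norm_six hw.head.1, one_pow, one_mul, norm_pow,
        Complex.norm_natCast]
      push_cast
      exact div_le_div_of_nonneg_right (ih hw.tail _ _) (by positivity)
    · simp

/-- the product of the roots of unity -/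
noncomputable def pz (w : List Lt) : ℂ := (w.map Prod.snd).prod

lemma pz_nil : pz [] = 1 := rfl
lemma pz_cons (x : Lt) (l : List Lt) : pz (x :: l) = x.2 * pz l := by
  rw [pz, pz, List.map_cons, List.prod_cons]

lemma pz_six (w : List Lt) (hw : GD w) : pz w ^ 6 = 1 := by
  induction w with
  | nil => rw [pz_nil, one_pow]
  | cons x l ih => rw [pz_cons, mul_pow, hw.head.1, ih hw.tail, one_mul]

/-- all prime factors are `1` modulo `6` -/
def P6 (K : ℕ) : Prop := ∀ p : ℕ, p.Prime → p ∣ K → p ≡ 1 [MOD 6]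

lemma P6_mod : ∀ j : ℕ, j ≠ 0 → P6 j → j ≡ 1 [MOD 6] := by
  intro j
  induction j using Nat.recOnMul with
  | zero => intro h; exact absurd rfl h
  | one => intro _ _; rfl
  | prime p hp => intro _ h; exact h p hp dvd_rfl
  | mul a b ha hb =>
    intro h0 h
    have h1 := ha (left_ne_zero_of_mul h0) fun p hp hd => h p hp (dvd_mul_of_dvd_left hd _)
    have h2 := hb (right_ne_zero_of_mul h0) fun p hp hd => h p hp (dvd_mul_of_dvd_right hd _)
    exact h1.mul h2

lemma pow_mod {z : ℂ} (h : z ^ 6 = 1) {j : ℕ} (hj : j ≡ 1 [MOD 6]) : z ^ j = z := by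
  have h1 : j = 6 * (j / 6) + 1 := by
    have h2 : j % 6 = 1 := hj
    omega
  rw [h1, pow_succ, pow_mul, h, one_pow, one_mul]

/-- **the value when all prime factors are `1` modulo `6`** -/
lemma TC_at (w : List Lt) (hw : GD w) : ∀ m K, K ≠ 0 → P6 K →
    TC w m K = pz w * (T 1 (pt w) m K : ℚ) := by
  induction w with
  | nil =>
    intro m K _ _
    rw [TC_nil, pt_nil, T_nil, pz_nil, one_mul]
    split_ifs <;> simp
  | cons x l ih =>
    intro m K hK h6
    rw [TC_cons, pt_cons, T_cons, lo_one, pz_cons, Rat.cast_sum, mul_sum]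
    refine sum_congr rfl fun j hj => ?_
    rw [mem_Ico] at hj
    split_ifs with hd
    · have hR : K / j ^ x.1.1 ∣ K := Nat.div_dvd_of_dvd hd
      have hR0 : K / j ^ x.1.1 ≠ 0 := fun h0 => hK (Nat.eq_zero_of_zero_dvd (h0 ▸ hR))
      rw [ih hw.tail j _ hR0 fun p hp hpd => h6 p hp (hpd.trans hR)]
      have hz : x.2 ^ j = x.2 := by
        by_cases hx : x.1.1 = 0
        · rw [hw.head.2 hx, one_pow]
        · have hjK : j ∣ K := (dvd_pow_self j hx).trans hd
          exact pow_mod hw.head.1 (P6_mod j (by omega) fun p hp hpd => h6 p hp (hpd.trans hjK))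
      rw [hz]
      push_cast
      ring
    · simp

end Pool.Agent.Y777.CL
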