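import Mathlib
import Pool.Agent.Y777.CL.R
import Pool.Agent.TH883.Zg.Cop

/-!
# Multiple polylogarithms at sixth roots of unity: the theorem
-/

set_option autoImplicit false

namespace Pool.Agent.Y777.CL

open Finset Filter Topology
open Pool.Agent.TH507.ZS (dser dser_summable Z2 Z2_sum Z2_nonneg)
open Pool.Agent.TH507.WD (hr hr_nil hr_cons hr_nonneg mz hr_range)
open Pool.Agent.TH883.Zg (main_const)
open Pool.Agent.TH507.WG

/-- the truncated sums -/
noncomputable def tr : List (ℕ × ℂ) → ℕ → ℂ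
  | [], _ => 1
  | x :: l, m => ∑ j ∈ Ico 1 m, x.2 ^ j / (j : ℂ) ^ x.1 * tr l j

lemma tr_nil (m : ℕ) : tr [] m = 1 := by rw [tr]
lemma tr_cons (x : ℕ × ℂ) (l : List (ℕ × ℂ)) (m : ℕ) :
    tr (x :: l) m = ∑ j ∈ Ico 1 m, x.2 ^ j / (j : ℂ) ^ x.1 * tr l j := by rw [tr]

/-- the values -/
noncomputable def Li : List (ℕ × ℂ) → ℂ
  | [] => 1
  | x :: l => ∑' k : ℕ, x.2 ^ (k + 1) / ((k + 1 : ℕ) : ℂ) ^ x.1 * tr l (k + 1)

/-- the arguments at `n` -/
def ag (n : ℕ) (w : List Lt) : List (ℕ × ℂ) := w.map fun x => (x.1.1 * n + x.1.2, x.2)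

lemma ag_nil (n : ℕ) : ag n [] = [] := rfl
lemma ag_cons (n : ℕ) (x : Lt) (l : List Lt) :
    ag n (x :: l) = (x.1.1 * n + x.1.2, x.2) :: ag n l := rfl

lemma tr_norm (n : ℕ) (w : List Lt) (hw : GD w) : ∀ m, ‖tr (ag n w) m‖ ≤ hr (ar n (pt w)) m := by
  induction w with
  | nil =>
    intro m
    rw [ag_nil, tr_nil, pt_nil, ar_nil, hr_nil, norm_one]
  | cons x l ih =>
    intro m
    rw [ag_cons, tr_cons, pt_cons, ar_cons, hr_cons]
    refine (norm_sum_le _ _).trans (sum_le_sum fun j _ => ?_)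
    rw [norm_mul, norm_div, norm_pow, norm_six hw.head.1, one_pow, norm_pow, Complex.norm_natCast,
      div_mul_eq_mul_div, one_mul]
    exact div_le_div_of_nonneg_right (ih hw.tail j) (by positivity)

lemma hasSum_TC (n : ℕ) (hn : 1 ≤ n) (w : List Lt) : ∀ m,
    HasSum (fun K : ℕ => TC w m K / (K : ℂ) ^ n) (tr (ag n w) m) := by
  induction w with
  | nil =>
    intro m
    rw [ag_nil, tr_nil]
    convert hasSum_ite_eq (1 : ℕ) (1 : ℂ) using 1
    funext K
    rw [TC_nil]
    split_ifs with h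
    · subst h
      simp
    · simp
  | cons x l ih =>
    intro m
    rw [ag_cons, tr_cons]
    have h0 : (fun K : ℕ => TC (x :: l) m K / (K : ℂ) ^ n) = fun K : ℕ =>
        ∑ j ∈ Ico 1 m, ((if j ^ x.1.1 ∣ K then
          x.2 ^ j * TC l j (K / j ^ x.1.1) / (j : ℂ) ^ x.1.2 else 0)) / (K : ℂ) ^ n := by
      funext K
      rw [TC_cons, sum_div]
    rw [h0]
    refine hasSum_sum fun j hj => ?_
    rw [mem_Ico] at hj
    have hj0 : 0 < j ^ x.1.1 := pow_pos (by omega) _
    have hinj : Function.Injective fun K' : ℕ => j ^ x.1.1 * K' := fun p q h =>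
      Nat.eq_of_mul_eq_mul_left hj0 h
    refine (hinj.hasSum_iff ?_).1 ?_
    · intro K hK
      rw [if_neg]
      · simp
      · rintro ⟨R, rfl⟩
        exact hK ⟨R, rfl⟩
    · have h1 := (ih j).mul_left (x.2 ^ j / (j : ℂ) ^ (x.1.1 * n + x.1.2))
      refine Eq.mpr (congrArg (fun F => HasSum F _) (funext fun K' => ?_)) h1
      simp only [Function.comp]
      rw [if_pos (dvd_mul_right _ _), Nat.mul_div_cancel_left _ hj0]
      push_cast
      rw [pow_add, mul_pow, ← pow_mul]
      simp only [div_eq_mul_inv, mul_inv]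
      ring

lemma TC_stab (x : Lt) (l : List Lt) (hx : 1 ≤ x.1.1) (hw : GD (x :: l)) {m K : ℕ}
    (h : K + 1 ≤ m) : TC (x :: l) m K = TC (x :: l) (K + 1) K := by
  rcases Nat.eq_zero_or_pos K with rfl | hK
  · have h0 : ∀ m, TC (x :: l) m 0 = 0 := by
      intro m
      have h1 := TC_norm (x :: l) hw m 0
      rw [T_zero, Rat.cast_zero] at h1
      exact norm_le_zero_iff.1 h1
    rw [h0, h0]
  rw [TC_cons, TC_cons]
  symm
  refine sum_subset (Ico_subset_Ico_right h) fun j hj hj' => ?_
  rw [mem_Ico] at hj hj'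
  rw [if_neg]
  intro hd
  have h1 := Nat.le_of_dvd hK hd
  have h2 : j ≤ j ^ x.1.1 := Nat.le_self_pow (Nat.one_le_iff_ne_zero.1 hx) j
  omega

lemma li_eq (x : Lt) (l : List Lt) (hx : 1 ≤ x.1.1) (hw : GD (x :: l)) {A n : ℕ}
    (hA : 2 ^ (l.length + 1) ≤ A) (hA2 : l.length + 1 ≤ A) (hn : A + 2 ≤ n) :
    Summable (fun K : ℕ => TC (x :: l) (K + 1) K / (K : ℂ) ^ n) ∧
    ∑' K : ℕ, TC (x :: l) (K + 1) K / (K : ℂ) ^ n = Li (ag n (x :: l)) := by
  have hlen : (pt (x :: l)).length = l.length + 1 := by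
    rw [pt, List.length_map, List.length_cons]
  have hHP : HP (pt (x :: l)) := hx
  have hsum := dser_summable (cf_bd (pt (x :: l)) (A := A) (by rw [hlen]; exact hA)
    (by rw [hlen]; exact hA2)) hn
  have hF : Summable (fun K : ℕ => (cf 1 (pt (x :: l)) K : ℝ) / (K : ℝ) ^ n) :=
    (summable_nat_add_iff 1).1 hsum
  have hbd : ∀ m K, ‖TC (x :: l) m K / (K : ℂ) ^ n‖ ≤
      (cf 1 (pt (x :: l)) K : ℝ) / (K : ℝ) ^ n := by
    intro m K
    rw [norm_div, norm_pow, Complex.norm_natCast]
    refine div_le_div_of_nonneg_right ((TC_norm _ hw m K).trans ?_) (by positivity)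
    exact Rat.cast_le.2 (T_le_cf (pt (x :: l)) hHP 1 m K)
  refine ⟨Summable.of_norm_bounded hF fun K => hbd (K + 1) K, ?_⟩
  have h1 : Tendsto (fun m => ∑' K : ℕ, TC (x :: l) m K / (K : ℂ) ^ n) atTop
      (𝓝 (∑' K : ℕ, TC (x :: l) (K + 1) K / (K : ℂ) ^ n)) := by
    refine tendsto_tsum_of_dominated_convergence hF (fun K => ?_)
      (Eventually.of_forall fun m K => hbd m K)
    refine tendsto_const_nhds.congr' ?_
    filter_upwards [eventually_ge_atTop (K + 1)] with m hm
    rw [TC_stab x l hx hw hm]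
  have h2 : (fun m => ∑' K : ℕ, TC (x :: l) m K / (K : ℂ) ^ n) = fun m => tr (ag n (x :: l)) m :=
    funext fun m => (hasSum_TC n (by omega) (x :: l) m).tsum_eq
  rw [h2] at h1
  have hs : (ar n (pt l)).length + 2 ≤ x.1.1 * n + x.1.2 := by
    rw [ar_length, pt, List.length_map]
    have h3 : 1 * n ≤ x.1.1 * n := Nat.mul_le_mul_right _ hx
    omega
  -- the limit of the truncated sums
  have h3 : Tendsto (fun m => tr (ag n (x :: l)) m) atTop (𝓝 (Li (ag n (x :: l)))) := by
    rw [ag_cons, Li]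
    have hb : Summable fun k : ℕ => hr (ar n (pt l)) (k + 1) /
        ((k + 1 : ℕ) : ℝ) ^ (x.1.1 * n + x.1.2) := by
      refine summable_of_sum_range_le (c := Z2) (fun k => div_nonneg (hr_nonneg _ _)
        (by positivity)) fun m => ?_
      rw [hr_range]
      exact hr_bd _ _ hs _
    have hsm : Summable fun k : ℕ => x.2 ^ (k + 1) / ((k + 1 : ℕ) : ℂ) ^ (x.1.1 * n + x.1.2) *
        tr (ag n l) (k + 1) := by
      refine Summable.of_norm_bounded hb fun k => ?_
      rw [norm_mul, norm_div, norm_pow, norm_six hw.head.1, one_pow, norm_pow,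
        Complex.norm_natCast, div_mul_eq_mul_div, one_mul]
      exact div_le_div_of_nonneg_right (tr_norm n l hw.tail _) (by positivity)
    have h4 := hsm.hasSum.tendsto_sum_nat
    refine (tendsto_add_atTop_iff_nat 1).1 (h4.congr fun m => ?_)
    rw [tr_cons, sum_Ico_eq_sum_range]
    refine sum_congr rfl fun k _ => ?_
    rw [add_comm 1 k]
  exact tendsto_nhds_unique h1 h3

/-- the rational coefficients of the real part -/
noncomputable def gg (w : List Lt) (hw : GD w) (K : ℕ) : ℚ := (TC_RR w hw (K + 1) K).re.choose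

lemma gg_eq (w : List Lt) (hw : GD w) (K : ℕ) : (TC w (K + 1) K).re = gg w hw K :=
  (TC_RR w hw (K + 1) K).re.choose_spec

lemma gg_bd (w : List Lt) (hw : GD w) {A : ℕ} (hA : 2 ^ w.length ≤ A) (hA2 : w.length ≤ A) (k : ℕ)
    (hk : 1 ≤ k) : |(gg w hw k : ℝ)| ≤ A * (k : ℝ) ^ A := by
  have hlen : (pt w).length = w.length := by rw [pt, List.length_map]
  rw [← gg_eq w hw k]
  refine (Complex.abs_re_le_norm _).trans ((TC_norm w hw _ _).trans ?_)
  have h1 := cf_bd (pt w) (A := A) (by rw [hlen]; exact hA) (by rw [hlen]; exact hA2) k hk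
  exact (le_abs_self _).trans h1

lemma dser_gg (x : Lt) (l : List Lt) (hx : 1 ≤ x.1.1) (hw : GD (x :: l)) {A n : ℕ}
    (hA : 2 ^ (l.length + 1) ≤ A) (hA2 : l.length + 1 ≤ A) (hn : A + 2 ≤ n) :
    dser (gg (x :: l) hw) n = (Li (ag n (x :: l))).re := by
  obtain ⟨h1, h2⟩ := li_eq x l hx hw hA hA2 hn
  have h3 := (Complex.hasSum_re h1.hasSum)
  rw [h2] at h3
  have h4 : (fun K : ℕ => (TC (x :: l) (K + 1) K / (K : ℂ) ^ n).re) =
      fun K : ℕ => (gg (x :: l) hw K : ℝ) / (K : ℝ) ^ n := by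
    funext K
    rw [← gg_eq, ← Complex.ofReal_natCast, ← Complex.ofReal_pow, Complex.div_ofReal_re]
  rw [h4] at h3
  have h5 := (hasSum_nat_add_iff' 1).2 h3
  rw [sum_range_one] at h5
  have h6 : (gg (x :: l) hw 0 : ℝ) / ((0 : ℕ) : ℝ) ^ n = 0 := by
    rw [Nat.cast_zero, zero_pow (by omega), div_zero]
  rw [h6, sub_zero] at h5
  rw [dser]
  exact h5.tsum_eq

/-- admissible words -/
def AD (w : List Lt) : Prop := w ≠ [] ∧ HP (pt w) ∧ OK (pt w) ∧ GD w

lemma dser_gg' (v : List Lt) (hv : AD v) {A n : ℕ} (hA : 2 ^ v.length + v.length ≤ A)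
    (hn : A + 2 ≤ n) : dser (gg v hv.2.2.2) n = (Li (ag n v)).re := by
  cases v with
  | nil => exact absurd rfl hv.1
  | cons x l =>
    rw [List.length_cons] at hA
    exact dser_gg x l hv.2.1 hv.2.2.2 ((Nat.le_add_right _ _).trans hA)
      ((Nat.le_add_left _ _).trans hA) hn

theorem main {J : Type} [Fintype J] (w : J → List Lt) (hw : ∀ j, AD (w j))
    (hinj : Function.Injective fun j => pt (w j)) (C : ℝ) :
    ∃ B : ℝ, 1 < B ∧ ∃ n0 : ℕ, ∀ n : ℕ, n0 ≤ n → ∀ (a : ℤ) (c : J → ℤ),
      (a ≠ 0 ∨ c ≠ 0) → (∀ j, |(c j : ℝ)| ≤ C ^ n) →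
      (B ^ n)⁻¹ < |(a : ℝ) + ∑ j, (c j : ℝ) * (Li (ag n (w j))).re| := by
  classical
  set A : ℕ := ∑ j, (2 ^ (w j).length + (w j).length) with hA
  have hAw : ∀ j, 2 ^ (w j).length + (w j).length ≤ A := fun j =>
    single_le_sum (f := fun j => 2 ^ (w j).length + (w j).length)
      (fun _ _ => Nat.zero_le _) (mem_univ j)
  obtain ⟨B, hB, n0, hmain⟩ := main_const (J := J) (fun j => gg (w j) (hw j).2.2.2) A
    (fun j k hk => gg_bd (w j) (hw j).2.2.2 ((Nat.le_add_right _ _).trans (hAw j))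
      ((Nat.le_add_left _ _).trans (hAw j)) k hk)
    (fun N X hN c hc => by
      -- the real parts of the products of the roots of unity
      have hρ : ∀ j, ∃ q : ℚ, (pz (w j)).re = q := fun j =>
        (RR.six (pz_six (w j) (hw j).2.2.2)).re
      choose ρ hρ using hρ
      have hρ0 : ∀ j, ρ j ≠ 0 := by
        intro j h0
        have h1 := re_ne (pz_six (w j) (hw j).2.2.2)
        rw [hρ j, h0, Rat.cast_zero] at h1
        exact h1 rfl
      have h1 := cf1_ind (fun _ p => p ≡ 1 [MOD 6 * N]) (fun _ Y => by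
          obtain ⟨p, hp, hpY, hp1⟩ := Nat.exists_prime_gt_modEq_one (k := 6 * N) Y (by omega)
          exact ⟨p, hp, hpY.le, hp1⟩)
        (univ.image fun j => pt (w j)) (by
          intro h
          obtain ⟨j, -, hj⟩ := mem_image.1 h
          exact (hw j).1 (List.map_eq_nil_iff.1 hj)) (by
          intro v hv
          obtain ⟨j, -, rfl⟩ := mem_image.1 hv
          exact (hw j).2.1) (by
          intro v hv
          obtain ⟨j, -, rfl⟩ := mem_image.1 hv
          exact (hw j).2.2.1)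
        (fun v => ∑ j, if pt (w j) = v then c j * ρ j else 0) (X + N + 1) (by
          intro Q hQ0 hQ hQC hQX
          have hK0 := KQ_ne hQ.1
          have hprime : ∀ p : ℕ, p.Prime → p ∣ KQ Q → X + N + 1 ≤ p ∧ p ≡ 1 [MOD 6 * N] := by
            intro p hp hpd
            obtain ⟨q, hq, rfl⟩ := KQ_prime hQ.1 hp hpd
            refine ⟨hQX q hq, ?_⟩
            clear hp hpd hQX hK0 hQ hQ0
            induction Q with
            | nil => exact absurd hq List.not_mem_nil
            | cons r Q ih =>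
              rcases List.mem_cons.1 hq with rfl | hq
              · exact hQC.1
              · exact ih hQC.2 hq
          have h6 : P6 (KQ Q) := fun p hp hpd =>
            (hprime p hp hpd).2.of_dvd (dvd_mul_right 6 N)
          have hX : X ≤ KQ Q := by
            obtain ⟨q, Q', rfl⟩ := List.exists_cons_of_ne_nil hQ0
            have h2 := hQX q List.mem_cons_self
            have h3 : q.1 ∣ KQ (q :: Q') := by
              rw [KQ_cons]
              have := hQ.2.1 q List.mem_cons_self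
              exact dvd_mul_of_dvd_left (dvd_pow_self _ (by omega)) _
            have h4 := Nat.le_of_dvd (Nat.pos_of_ne_zero hK0) h3
            omega
          have hcop : (KQ Q).Coprime N := by
            rw [Nat.coprime_iff_gcd_eq_one]
            by_contra hg
            obtain ⟨r, hr, hrd⟩ := Nat.exists_prime_and_dvd hg
            have h2 := (hprime r hr (hrd.trans (Nat.gcd_dvd_left _ _))).1
            have h5 := Nat.le_of_dvd hN (hrd.trans (Nat.gcd_dvd_right _ _))
            omega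
          have h7 := hc (KQ Q) hX hcop
          have h8 : ∀ j, gg (w j) (hw j).2.2.2 (KQ Q) = ρ j * cf 1 (pt (w j)) (KQ Q) := by
            intro j
            have h9 := gg_eq (w j) (hw j).2.2.2 (KQ Q)
            rw [TC_at (w j) (hw j).2.2.2 _ _ hK0 h6] at h9
            have h10 : ((pz (w j)) * ((T 1 (pt (w j)) (KQ Q + 1) (KQ Q) : ℚ) : ℂ)).re =
                ρ j * (cf 1 (pt (w j)) (KQ Q) : ℝ) := by
              rw [← hρ j, cf, ← Complex.ofReal_ratCast, Complex.re_mul_ofReal]
            rw [h10] at h9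
            exact_mod_cast h9.symm
          refine Eq.trans ?_ h7
          simp only [h8]
          rw [sum_image (fun i _ j _ h => hinj h)]
          refine sum_congr rfl fun i _ => ?_
          rw [sum_eq_single i]
          · rw [if_pos rfl]
            ring
          · intro j _ hji
            rw [if_neg fun h => hji (hinj h)]
          · intro h
            exact absurd (mem_univ _) h)
      funext j
      have h2 := h1 (pt (w j)) (mem_image_of_mem _ (mem_univ j))
      rw [sum_eq_single j] at h2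
      · rw [if_pos rfl] at h2
        exact (mul_eq_zero.1 h2).resolve_right (hρ0 j)
      · intro i _ hij
        rw [if_neg fun h => hij (hinj h)]
      · intro h
        exact absurd (mem_univ _) h) C
  refine ⟨B, hB, n0 + A + 2, fun n hn a c hac hc => ?_⟩
  have h1 := hmain n (by omega) a c hac hc
  have h3 : ∀ j, dser (gg (w j) (hw j).2.2.2) n = (Li (ag n (w j))).re := fun j =>
    dser_gg' (w j) (hw j) (hAw j) (by omega)
  simp only [h3] at h1
  exact h1

end Pool.Agent.Y777.CL
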